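import Pool.Agent.R612.PF.Main

/-!
# MP_156542_lc, Q1: the answer is negative

A modal formula with a first-order correspondent over Kripke frames need not have one over
full possibility frames.
-/

namespace Pool.Agent.Results.MP_156542_lc.NoCorrespondent

open Pool.Agent.R612.PF FirstOrder

universe u w

/-- For every nonempty index set `I` there is a modal formula `φ` whose validity on Kripke frames
is defined by a first-order sentence in the symbols `R i`, while no first-order sentence in the
symbols for refinement and the `R i` defines validity of `φ` on full possibility frames. -/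
theorem result (I : Type w) [Nonempty I] :
    ∃ φ : Mf I,
      (∃ α : (kLang I).Sentence, ∀ K : KFrame.{u, w} I, K.Valid φ ↔ K.W ⊨ α) ∧
      ¬ ∃ α : (pLang I).Sentence, ∀ F : PFrame.{0, w} I, F.Valid φ ↔ F.S ⊨ α := by
  obtain ⟨i⟩ := ‹Nonempty I›
  exact ⟨phi i, ⟨fPhi i, kripke_correspondent i⟩, no_correspondent I i⟩

end Pool.Agent.Results.MP_156542_lc.NoCorrespondent
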